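import Pool.Agent.Lib.MP_e1f7e2_al.FA.Iface

set_option autoImplicit false

open MulOpposite

namespace Pool.Agent.Lib.MP_e1f7e2_al.FA.H91

section

variable {K : Type*} [Field K]

theorem evl_xx {n : ℕ} {C : Type*} [Ring C] [Algebra K C] (F : Fin n → C) (i : Fin n) :
    evl (K := K) F (xx i) = F i := by
  simp [evl, xx, MonoidAlgebra.lift_single]

theorem alg_ext {n : ℕ} {C : Type*} [Ring C] [Algebra K C] (φ ψ : A K n →ₐ[K] C)
    (h : ∀ i, φ (xx i) = ψ (xx i)) : φ = ψ := by
  apply MonoidAlgebra.algHom_ext'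
  · apply FreeMonoid.hom_eq
    intro i
    exact h i
  · apply Subsingleton.elim

theorem coeff_xx {n : ℕ} (i j : Fin n) :
    (xx i : A K n).coeff (FreeMonoid.of j) = if i = j then 1 else 0 := by
  classical
  simp only [xx, MonoidAlgebra.coeff_single, Finsupp.single_apply]
  by_cases h : i = j
  · simp [h]
  · rw [if_neg h, if_neg]
    intro h'
    exact h (FreeMonoid.of_injective h')

theorem coeff_one_of {n : ℕ} (j : Fin n) :
    (1 : A K n).coeff (FreeMonoid.of j) = 0 := by
  classical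
  rw [MonoidAlgebra.one_def, MonoidAlgebra.coeff_single, Finsupp.single_apply, if_neg]
  intro h
  exact FreeMonoid.of_ne_one j h.symm

theorem coeff_xx_one {n : ℕ} (i : Fin n) :
    (xx i : A K n).coeff 1 = 0 := by
  classical
  rw [xx, MonoidAlgebra.coeff_single, Finsupp.single_apply, if_neg]
  intro h
  exact FreeMonoid.of_ne_one i h

/-- linear independence of `1` and the letters -/
theorem indep0 (a b c d : K)
    (h : a • (xx 0 : A K 3) + b • xx 1 + c • xx 2 + d • 1 = 0) :
    a = 0 ∧ b = 0 ∧ c = 0 ∧ d = 0 := by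
  have key : ∀ j : Fin 3, (a • (xx 0 : A K 3) + b • xx 1 + c • xx 2 + d • 1).coeff
      (FreeMonoid.of j) = a * (if (0 : Fin 3) = j then 1 else 0) +
        b * (if (1 : Fin 3) = j then 1 else 0) + c * (if (2 : Fin 3) = j then 1 else 0) := by
    intro j
    simp only [MonoidAlgebra.coeff_add, MonoidAlgebra.coeff_smul, Finsupp.add_apply,
      Finsupp.smul_apply, coeff_xx, coeff_one_of, smul_eq_mul, mul_zero, add_zero]
  have k1 : (a • (xx 0 : A K 3) + b • xx 1 + c • xx 2 + d • 1).coeff 1 = d := by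
    simp only [MonoidAlgebra.coeff_add, MonoidAlgebra.coeff_smul, Finsupp.add_apply,
      Finsupp.smul_apply, coeff_xx_one, smul_eq_mul, mul_zero, add_zero, zero_add,
      MonoidAlgebra.coeff_one_one, mul_one]
  rw [h] at key k1
  have h0 := key 0
  have h1 := key 1
  have h2 := key 2
  simp at h0 h1 h2 k1
  exact ⟨h0.symm, h1.symm, h2.symm, k1.symm⟩

/-- a frame as an algebra map -/
theorem fr_evl {f g h : A K 3} (hf : Fr f g h) :
    ∃ φ : A K 3 ≃ₐ[K] A K 3, (∀ P, φ P = evl ![f, g, h] P) := by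
  obtain ⟨φ, h0, h1, h2⟩ := hf
  refine ⟨φ, fun P => ?_⟩
  have : (φ : A K 3 →ₐ[K] A K 3) = evl ![f, g, h] := by
    apply alg_ext
    intro i
    rw [evl_xx]
    fin_cases i
    · exact h0
    · exact h1
    · exact h2
  exact DFunLike.congr_fun this P

theorem fr_of_inv {f g h : A K 3} (σ τ : A K 3 →ₐ[K] A K 3)
    (h0 : σ (xx 0) = f) (h1 : σ (xx 1) = g) (h2 : σ (xx 2) = h)
    (hst : ∀ i, σ (τ (xx i)) = xx i) (hts : ∀ i, τ (σ (xx i)) = xx i) : Fr f g h := by
  refine ⟨AlgEquiv.ofAlgHom σ τ ?_ ?_, h0, h1, h2⟩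
  · apply alg_ext
    intro i
    exact hst i
  · apply alg_ext
    intro i
    exact hts i

/-- composition of a frame with an automorphism -/
theorem fr_comp {f g h : A K 3} (hf : Fr f g h) {F G H : A K 3} (hF : Fr F G H) :
    Fr (evl ![f, g, h] F) (evl ![f, g, h] G) (evl ![f, g, h] H) := by
  obtain ⟨φ, hφ⟩ := fr_evl hf
  obtain ⟨ψ, h0, h1, h2⟩ := hF
  refine ⟨ψ.trans φ, ?_, ?_, ?_⟩
  · rw [AlgEquiv.trans_apply, h0, hφ]
  · rw [AlgEquiv.trans_apply, h1, hφ]
  · rw [AlgEquiv.trans_apply, h2, hφ]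

theorem fr_pull {f g h : A K 3} (hf : Fr f g h) {F G H : A K 3}
    (hF : Fr (evl ![f, g, h] F) (evl ![f, g, h] G) (evl ![f, g, h] H)) : Fr F G H := by
  obtain ⟨φ, hφ⟩ := fr_evl hf
  obtain ⟨ψ, h0, h1, h2⟩ := hF
  refine ⟨ψ.trans φ.symm, ?_, ?_, ?_⟩
  · rw [AlgEquiv.trans_apply, h0, ← hφ, AlgEquiv.symm_apply_apply]
  · rw [AlgEquiv.trans_apply, h1, ← hφ, AlgEquiv.symm_apply_apply]
  · rw [AlgEquiv.trans_apply, h2, ← hφ, AlgEquiv.symm_apply_apply]

theorem frBase : Fr (xx 0 : A K 3) (xx 1) (xx 2) := ⟨AlgEquiv.refl, rfl, rfl, rfl⟩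

theorem evl3_0 {C : Type*} [Ring C] [Algebra K C] (f g h : C) :
    evl (K := K) ![f, g, h] (xx 0) = f := by rw [evl_xx]; rfl
theorem evl3_1 {C : Type*} [Ring C] [Algebra K C] (f g h : C) :
    evl (K := K) ![f, g, h] (xx 1) = g := by rw [evl_xx]; rfl
theorem evl3_2 {C : Type*} [Ring C] [Algebra K C] (f g h : C) :
    evl (K := K) ![f, g, h] (xx 2) = h := by rw [evl_xx]; rfl

theorem evl2_0 {C : Type*} [Ring C] [Algebra K C] (f g : C) :
    evl (K := K) ![f, g] (xx 0) = f := by rw [evl_xx]; rfl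
theorem evl2_1 {C : Type*} [Ring C] [Algebra K C] (f g : C) :
    evl (K := K) ![f, g] (xx 1) = g := by rw [evl_xx]; rfl

/-- elementary automorphism -/
theorem frEl0 (P : A K 2) (c : K) (hc : c ≠ 0) :
    Fr (xx 0 : A K 3) (xx 1) (c • xx 2 + ev P (xx 0) (xx 1)) := by
  have hev : ∀ φ : A K 3 →ₐ[K] A K 3, φ (xx 0) = xx 0 → φ (xx 1) = xx 1 →
      φ (ev P (xx 0) (xx 1)) = ev P (xx 0) (xx 1) := by
    intro φ h0 h1
    have : (φ.comp (evl ![xx 0, xx 1]) : A K 2 →ₐ[K] A K 3) = evl ![xx 0, xx 1] := by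
      apply alg_ext
      intro i
      rw [AlgHom.comp_apply]
      fin_cases i
      · show φ (evl ![xx 0, xx 1] (xx 0)) = evl ![xx 0, xx 1] (xx 0)
        rw [evl2_0, h0]
      · show φ (evl ![xx 0, xx 1] (xx 1)) = evl ![xx 0, xx 1] (xx 1)
        rw [evl2_1, h1]
    exact DFunLike.congr_fun this P
  set p : A K 3 := ev P (xx 0) (xx 1) with hp
  refine fr_of_inv (evl ![xx 0, xx 1, c • xx 2 + p]) (evl ![xx 0, xx 1, c⁻¹ • (xx 2 - p)])
    (evl3_0 _ _ _) (evl3_1 _ _ _) (evl3_2 _ _ _) ?_ ?_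
  · intro i
    fin_cases i
    · show evl ![xx 0, xx 1, c • xx 2 + p] (evl ![xx 0, xx 1, c⁻¹ • (xx 2 - p)] (xx 0)) = xx 0
      rw [evl3_0, evl3_0]
    · show evl ![xx 0, xx 1, c • xx 2 + p] (evl ![xx 0, xx 1, c⁻¹ • (xx 2 - p)] (xx 1)) = xx 1
      rw [evl3_1, evl3_1]
    · show evl ![xx 0, xx 1, c • xx 2 + p] (evl ![xx 0, xx 1, c⁻¹ • (xx 2 - p)] (xx 2)) = xx 2
      rw [evl3_2, map_smul, map_sub, evl3_2, hev _ (evl3_0 _ _ _) (evl3_1 _ _ _),
        add_sub_cancel_right, smul_smul, inv_mul_cancel₀ hc, one_smul]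
  · intro i
    fin_cases i
    · show evl ![xx 0, xx 1, c⁻¹ • (xx 2 - p)] (evl ![xx 0, xx 1, c • xx 2 + p] (xx 0)) = xx 0
      rw [evl3_0, evl3_0]
    · show evl ![xx 0, xx 1, c⁻¹ • (xx 2 - p)] (evl ![xx 0, xx 1, c • xx 2 + p] (xx 1)) = xx 1
      rw [evl3_1, evl3_1]
    · show evl ![xx 0, xx 1, c⁻¹ • (xx 2 - p)] (evl ![xx 0, xx 1, c • xx 2 + p] (xx 2)) = xx 2
      rw [evl3_2, map_add, map_smul, evl3_2, hev _ (evl3_0 _ _ _) (evl3_1 _ _ _),
        smul_smul, mul_inv_cancel₀ hc, one_smul, sub_add_cancel]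

theorem frEl (hch : ChainFacts K 3) (f g h q : A K 3) (c : K) (hf : Fr f g h) (hc : c ≠ 0)
    (hq : q ∈ B f g) : Fr f g (c • h + q) := by
  obtain ⟨P, hP⟩ := (hch.bmem f g q).1 hq
  have := fr_comp hf (frEl0 P c hc)
  rw [evl3_0, evl3_1, map_add, map_smul, evl3_2] at this
  have h2 : evl ![f, g, h] (ev P (xx 0) (xx 1)) = q := by
    rw [hP]
    have : ((evl ![f, g, h]).comp (evl ![xx 0, xx 1]) : A K 2 →ₐ[K] A K 3) = evl ![f, g] := by
      apply alg_ext
      intro i
      rw [AlgHom.comp_apply]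
      fin_cases i
      · show evl ![f, g, h] (evl ![xx 0, xx 1] (xx 0)) = evl ![f, g] (xx 0)
        rw [evl2_0, evl3_0, evl2_0]
      · show evl ![f, g, h] (evl ![xx 0, xx 1] (xx 1)) = evl ![f, g] (xx 1)
        rw [evl2_1, evl3_1, evl2_1]
    exact DFunLike.congr_fun this P
  rwa [h2] at this

/-- the span of `1` and the letters -/
noncomputable def LL (K : Type*) [Field K] : Submodule K (A K 3) := sp (xx 0) (xx 1) (xx 2)

theorem sp_ev {f g h : A K 3} (r : A K 3) :
    r ∈ sp f g h ↔ ∃ R ∈ LL K, evl ![f, g, h] R = r := by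
  have hm : Submodule.map (evl ![f, g, h] : A K 3 →ₐ[K] A K 3).toLinearMap (LL K) =
      sp f g h := by
    rw [LL, sp, Submodule.map_span, sp]
    congr 1
    rw [Set.image_insert_eq, Set.image_insert_eq, Set.image_insert_eq, Set.image_singleton]
    simp only [AlgHom.toLinearMap_apply, evl3_0, evl3_1, evl3_2, map_one]
  rw [← hm]
  simp only [Submodule.mem_map, AlgHom.toLinearMap_apply]

theorem frLin {F G H : A K 3} (h : sp F G H = LL K) : Fr F G H := by
  have hx : ∀ i : Fin 3, (xx i : A K 3) ∈ LL K := by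
    intro i
    apply Submodule.subset_span
    fin_cases i
    · simp
    · simp
    · simp
  have hx' : ∀ i : Fin 3, (xx i : A K 3) ∈ sp F G H := fun i => h ▸ hx i
  have hs : ∀ i : Fin 3, ∃ R ∈ LL K, evl ![F, G, H] R = xx i := fun i => (sp_ev _).1 (hx' i)
  choose s hsL hs using hs
  have hFL : F ∈ LL K ∧ G ∈ LL K ∧ H ∈ LL K := by
    rw [← h]
    refine ⟨Submodule.subset_span (by simp), Submodule.subset_span (by simp),
      Submodule.subset_span (by simp)⟩
  have hmap : ∀ (a b c : A K 3), a ∈ LL K → b ∈ LL K → c ∈ LL K → ∀ R ∈ LL K,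
      evl ![a, b, c] R ∈ LL K := by
    intro a b c ha hb hc R hR
    have : evl ![a, b, c] R ∈ sp a b c := (sp_ev _).2 ⟨R, hR, rfl⟩
    refine (Submodule.span_le.2 ?_) this
    intro y hy
    simp only [Set.mem_insert_iff, Set.mem_singleton_iff] at hy
    rcases hy with rfl | rfl | rfl | rfl
    · exact Submodule.subset_span (by simp)
    · exact ha
    · exact hb
    · exact hc
  set σ : A K 3 →ₐ[K] A K 3 := evl ![F, G, H] with hσ
  set τ : A K 3 →ₐ[K] A K 3 := evl ![s 0, s 1, s 2] with hτ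
  have hστ : ∀ i, σ (τ (xx i)) = xx i := by
    intro i
    fin_cases i
    · show σ (τ (xx 0)) = xx 0
      rw [hτ, evl3_0, hs]
    · show σ (τ (xx 1)) = xx 1
      rw [hτ, evl3_1, hs]
    · show σ (τ (xx 2)) = xx 2
      rw [hτ, evl3_2, hs]
  -- `σ` maps `LL` onto `LL`, so it is injective there
  have : FiniteDimensional K (LL K) := by
    rw [LL, sp]
    exact FiniteDimensional.span_of_finite K (Set.toFinite _)
  have hσL : ∀ R ∈ LL K, σ R ∈ LL K := hmap F G H hFL.1 hFL.2.1 hFL.2.2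
  have hτL : ∀ R ∈ LL K, τ R ∈ LL K := hmap _ _ _ (hsL 0) (hsL 1) (hsL 2)
  have hcomp : σ.comp τ = AlgHom.id K (A K 3) := by
    apply alg_ext
    intro i
    exact hστ i
  have hsurj : Function.Surjective (σ.toLinearMap.restrict hσL) := by
    intro y
    refine ⟨⟨τ y.1, hτL _ y.2⟩, ?_⟩
    apply Subtype.ext
    exact DFunLike.congr_fun hcomp y.1
  have hinj : Function.Injective (σ.toLinearMap.restrict hσL) :=
    LinearMap.injective_iff_surjective.2 hsurj
  have hts : ∀ R ∈ LL K, τ (σ R) = R := by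
    intro R hR
    have h1 : (σ.toLinearMap.restrict hσL) ⟨τ (σ R), hτL _ (hσL _ hR)⟩ =
        (σ.toLinearMap.restrict hσL) ⟨R, hR⟩ := by
      apply Subtype.ext
      exact DFunLike.congr_fun hcomp (σ R)
    exact congrArg Subtype.val (hinj h1)
  exact fr_of_inv σ τ (evl3_0 _ _ _) (evl3_1 _ _ _) (evl3_2 _ _ _) hστ (fun i => hts _ (hx i))

theorem frSp (f g h f' g' h' : A K 3) (hf : Fr f g h) (hs : sp f g h = sp f' g' h') :
    Fr f' g' h' := by
  obtain ⟨φ, hφ⟩ := fr_evl hf
  have hφ2 : ∀ P : A K 3, (φ : A K 3 →ₐ[K] A K 3) P = evl ![f, g, h] P := hφ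
  have h1 : f' ∈ sp f g h ∧ g' ∈ sp f g h ∧ h' ∈ sp f g h := by
    rw [hs]
    refine ⟨Submodule.subset_span (by simp), Submodule.subset_span (by simp),
      Submodule.subset_span (by simp)⟩
  obtain ⟨F, hF, hF'⟩ := (sp_ev _).1 h1.1
  obtain ⟨G, hG, hG'⟩ := (sp_ev _).1 h1.2.1
  obtain ⟨H, hH, hH'⟩ := (sp_ev _).1 h1.2.2
  have key : sp F G H = LL K := by
    have e1 : Submodule.map (φ : A K 3 →ₐ[K] A K 3).toLinearMap (sp F G H) = sp f' g' h' := by
      rw [sp, Submodule.map_span, sp]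
      congr 1
      rw [Set.image_insert_eq, Set.image_insert_eq, Set.image_insert_eq, Set.image_singleton]
      simp only [AlgHom.toLinearMap_apply, hφ2, hF', hG', hH', map_one]
    have e2 : Submodule.map (φ : A K 3 →ₐ[K] A K 3).toLinearMap (LL K) = sp f g h := by
      ext r
      rw [sp_ev]
      simp only [Submodule.mem_map, AlgHom.toLinearMap_apply, hφ2]
    have e3 := e1.trans (hs.symm.trans e2.symm)
    refine Submodule.map_injective_of_injective ?_ e3
    intro a b hab
    exact φ.injective hab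
  have := fr_comp hf (frLin key)
  rwa [hF', hG', hH'] at this

theorem frNc (f g h : A K 3) (hf : Fr f g h) : f * g ≠ g * f := by
  obtain ⟨φ, h0, h1, h2⟩ := hf
  intro hfg
  rw [← h0, ← h1, ← map_mul, ← map_mul] at hfg
  have h3 := φ.injective hfg
  rw [xx, xx, MonoidAlgebra.single_mul_single, MonoidAlgebra.single_mul_single] at h3
  have h4 := (MonoidAlgebra.single_left_inj (by simp : (1 : K) * 1 ≠ 0)).1 h3
  have h5 := congrArg FreeMonoid.toList h4
  simp at h5

theorem frIndep (f g h : A K 3) (a b c d : K) (hf : Fr f g h)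
    (he : a • f + b • g + c • h + d • 1 = 0) : a = 0 ∧ b = 0 ∧ c = 0 ∧ d = 0 := by
  obtain ⟨φ, h0, h1, h2⟩ := hf
  apply indep0 a b c d
  apply φ.injective
  rw [map_add, map_add, map_add, map_smul, map_smul, map_smul, map_smul, h0, h1, h2, map_one,
    map_zero, he]

/-- linear parts -/
noncomputable def tz (n : ℕ) : A K n →ₐ[K] TrivSqZeroExt K (Fin n → K) :=
  evl (fun i => TrivSqZeroExt.inr (Pi.single i 1))

open Classical in
theorem tz_single {n : ℕ} (u : Wd n) : (tz n (MonoidAlgebra.single u (1 : K))) =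
    TrivSqZeroExt.inl (if u = 1 then 1 else 0) +
      TrivSqZeroExt.inr (fun j => if u = FreeMonoid.of j then 1 else 0) := by
  induction u using FreeMonoid.inductionOn' with
  | one =>
    rw [← MonoidAlgebra.one_def, map_one, if_pos rfl]
    ext j
    · simp
    · simp
  | of_mul i u ih =>
    have h1 : (MonoidAlgebra.single (FreeMonoid.of i * u) (1 : K)) =
        xx i * MonoidAlgebra.single u 1 := by
      rw [xx, MonoidAlgebra.single_mul_single, mul_one]
    rw [h1, map_mul, ih, tz, evl_xx]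
    have h2 : FreeMonoid.of i * u ≠ 1 := by
      intro h
      have := congrArg FreeMonoid.toList h
      simp at this
    rw [if_neg h2]
    have h3 : ∀ j, (FreeMonoid.of i * u = FreeMonoid.of j ↔ (i = j ∧ u = 1)) := by
      intro j
      constructor
      · intro h
        have h4 := congrArg FreeMonoid.toList h
        simp only [FreeMonoid.toList_of_mul, FreeMonoid.toList_of, List.cons.injEq] at h4
        exact ⟨h4.1, h4.2⟩
      · rintro ⟨rfl, rfl⟩
        simp
    ext j
    · simp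
    · simp only [h3]
      by_cases hu : u = 1
      · simp [hu, Pi.single_apply, eq_comm]
      · simp [hu]

theorem tz_coeff {n : ℕ} (f : A K n) (j : Fin n) :
    (tz n f).snd j = f.coeff (FreeMonoid.of j) := by
  classical
  induction f using MonoidAlgebra.induction_linear with
  | zero => simp
  | add f g hf hg =>
    rw [map_add, TrivSqZeroExt.snd_add, Pi.add_apply, hf, hg, MonoidAlgebra.coeff_add,
      Finsupp.add_apply]
  | single u c =>
    have h1 : (MonoidAlgebra.single u c : A K n) = c • MonoidAlgebra.single u 1 := by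
      rw [MonoidAlgebra.smul_single, smul_eq_mul, mul_one]
    rw [h1, map_smul, tz_single, MonoidAlgebra.coeff_smul, Finsupp.smul_apply,
      MonoidAlgebra.coeff_single, Finsupp.single_apply]
    simp

/-- a permutation of nonzero linear coefficients -/
theorem fr_perm {f g h : A K 3} (hf : Fr f g h) :
    ∃ σ : Equiv.Perm (Fin 3), ∀ i, ((![f, g, h] : Fin 3 → A K 3) (σ i)).coeff
      (FreeMonoid.of i) ≠ 0 := by
  classical
  obtain ⟨φ, hφ⟩ := fr_evl hf
  set F : Fin 3 → A K 3 := ![f, g, h] with hF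
  set M : Matrix (Fin 3) (Fin 3) K := fun i j => (F i).coeff (FreeMonoid.of j) with hM
  -- the rows of `M` span
  have hspan : Submodule.span K (Set.range M) = ⊤ := by
    set W := Submodule.span K (Set.range M) with hW
    have hmem : ∀ P : A K 3, (fun j => (evl F P).coeff (FreeMonoid.of j)) ∈ W := by
      intro P
      have h1 : (fun j => (evl F P).coeff (FreeMonoid.of j)) = (tz 3 (evl F P)).snd := by
        funext j
        rw [tz_coeff]
      rw [h1]
      have h2 : ∀ u : Wd 3, (tz 3 (evl F (MonoidAlgebra.single u (1 : K)))).snd ∈ W := by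
        intro u
        induction u using FreeMonoid.inductionOn' with
        | one =>
          rw [← MonoidAlgebra.one_def, map_one, map_one]
          simp
        | of_mul i u ih =>
          have h1 : (MonoidAlgebra.single (FreeMonoid.of i * u) (1 : K)) =
              xx i * MonoidAlgebra.single u 1 := by
            rw [xx, MonoidAlgebra.single_mul_single, mul_one]
          rw [h1, map_mul, map_mul, evl_xx, TrivSqZeroExt.snd_mul]
          refine W.add_mem (W.smul_mem _ ih) ?_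
          rw [op_smul_eq_smul]
          refine W.smul_mem _ ?_
          have h5 : (tz 3 (F i)).snd = M i := by
            funext j
            rw [tz_coeff]
          rw [h5]
          exact Submodule.subset_span ⟨i, rfl⟩
      induction P using MonoidAlgebra.induction_linear with
      | zero => simp
      | add P Q hP hQ =>
        have hP' := hP (by funext j; rw [tz_coeff])
        have hQ' := hQ (by funext j; rw [tz_coeff])
        rw [map_add, map_add, TrivSqZeroExt.snd_add]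
        exact W.add_mem hP' hQ'
      | single u c =>
        have h1 : (MonoidAlgebra.single u c : A K 3) = c • MonoidAlgebra.single u 1 := by
          rw [MonoidAlgebra.smul_single, smul_eq_mul, mul_one]
        rw [h1, map_smul, map_smul, TrivSqZeroExt.snd_smul]
        exact W.smul_mem _ (h2 u)
    rw [eq_top_iff]
    intro v _
    have hv : v = ∑ i, v i • (Pi.single i (1 : K) : Fin 3 → K) := by
      funext j
      simp [Finset.sum_apply, Pi.single_apply]
    rw [hv]
    refine W.sum_mem (fun i _ => W.smul_mem _ ?_)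
    have h3 := hmem (φ.symm (xx i))
    rw [← hφ, AlgEquiv.apply_symm_apply] at h3
    convert h3 using 1
    funext j
    rw [coeff_xx, Pi.single_apply]
    simp [eq_comm]
  have hdet : M.det ≠ 0 := by
    have h1 : LinearIndependent K M :=
      linearIndependent_of_top_le_span_of_card_eq_finrank hspan.ge (by simp)
    have h2 := Matrix.linearIndependent_rows_iff_isUnit.1 h1
    exact (Matrix.isUnit_iff_isUnit_det M).1 h2 |>.ne_zero
  rw [Matrix.det_apply] at hdet
  obtain ⟨σ, _, hσ⟩ := Finset.exists_ne_zero_of_sum_ne_zero hdet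
  refine ⟨σ, fun i hi => hσ ?_⟩
  rw [Finset.prod_eq_zero (Finset.mem_univ i) hi, smul_zero]

theorem wt_of {n : ℕ} (w : Fin n → ℝ) (i : Fin n) : wt w (FreeMonoid.of i) = w i := by
  simp [wt]

theorem frGe (w : Fin 3 → ℝ) (f g h : A K 3) (hf : Fr f g h) :
    sg w ≤ dg w f + dg w g + dg w h := by
  obtain ⟨σ, hσ⟩ := fr_perm hf
  have h1 : ∀ i, w i ≤ dg w ((![f, g, h] : Fin 3 → A K 3) (σ i)) := by
    intro i
    have hm : FreeMonoid.of i ∈ ((![f, g, h] : Fin 3 → A K 3) (σ i)).coeff.support :=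
      Finsupp.mem_support_iff.2 (hσ i)
    rw [dg, dgr, dif_pos ⟨_, hm⟩]
    have := Finset.le_sup' (wt w) hm
    rwa [wt_of] at this
  have h2 : ∑ i, dg w ((![f, g, h] : Fin 3 → A K 3) (σ i)) =
      ∑ i, dg w ((![f, g, h] : Fin 3 → A K 3) i) :=
    Equiv.sum_comp σ (fun i => dg w ((![f, g, h] : Fin 3 → A K 3) i))
  have h3 : ∑ i, w i ≤ ∑ i, dg w ((![f, g, h] : Fin 3 → A K 3) (σ i)) :=
    Finset.sum_le_sum (fun i _ => h1 i)
  rw [h2] at h3
  simp only [Fin.sum_univ_three] at h3
  exact h3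

theorem frame (K : Type*) [Field K] (w : Fin 3 → ℝ) (_hw : Gen w) (hs : SpanFacts K)
    (hd : DegFacts K w) (hc : ChainFacts K 3) : FrFacts K w := by
  have p12 : ∀ f g h : A K 3, Fr f g h → Fr g f h := fun f g h hf =>
    frSp f g h g f h hf (hs.scomm f g h)
  have p23 : ∀ f g h : A K 3, Fr f g h → Fr f h g := fun f g h hf =>
    frSp f g h f h g hf (hs.scomm' f g h)
  have el := frEl (K := K) hc
  have hmemadd : ∀ (f g h q : A K 3), Fr f g h → q ∈ B f g → Fr f g (h + q) := by
    intro f g h q hf hq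
    have := el f g h q 1 hf one_ne_zero hq
    rwa [one_smul] at this
  have adj' : ∀ f g h q q' : A K 3, Fr f g h → q ∈ B f g → q' ∈ B f g →
      Adj (sp f g (h + q)) (sp f g (h + q')) := by
    intro f g h q q' hf hq hq'
    refine ⟨f, g, h + q, q' - q, hmemadd _ _ _ _ hf hq, (B f g).sub_mem hq' hq, rfl, ?_⟩
    rw [add_assoc, add_sub_cancel]
  have adj : ∀ f g h q : A K 3, Fr f g h → q ∈ B f g → Adj (sp f g h) (sp f g (h + q)) :=
    fun f g h q hf hq => ⟨f, g, h, q, hf, hq, rfl, rfl⟩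
  refine ⟨frBase, p12, p23, el, frNc, ?_, frGe w, ?_, frSp, frIndep, adj, adj', ?_, ?_, ?_⟩
  · -- pos
    intro f g h hf
    rcases lt_or_eq_of_le (hd.nn f) with h0 | h0
    · exact h0
    · exfalso
      obtain ⟨c, hcc⟩ := hd.of_zero f h0.symm
      have h1 := frIndep f g h 1 0 0 (-c) hf (by rw [hcc]; simp)
      exact one_ne_zero h1.1
  · -- frlin
    intro f g f' g' h hf hl
    exact frSp f g h f' g' h hf (hs.slin f g f' g' h hl)
  · -- symm
    rintro V V' ⟨f, g, h, q, hf, hq, rfl, rfl⟩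
    refine ⟨f, g, h + q, -q, hmemadd _ _ _ _ hf hq, (B f g).neg_mem hq, rfl, ?_⟩
    rw [add_neg_cancel_right]
  · -- vtx
    rintro V V' ⟨f, g, h, q, hf, hq, rfl, rfl⟩
    exact ⟨⟨f, g, h, hf, rfl⟩, ⟨f, g, h + q, hmemadd _ _ _ _ hf hq, rfl⟩⟩
  · -- adjm
    intro f g h h' hf hq
    have h1 : h' = h + (h' - h) := by abel
    rw [h1]
    exact ⟨hmemadd _ _ _ _ hf hq, adj _ _ _ _ hf hq⟩

end

end Pool.Agent.Lib.MP_e1f7e2_al.FA.H91
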