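import Pool.Agent.Lib.MP_e1f7e2_al.FA.Iface2
import Pool.Agent.Lib.MP_e1f7e2_al.FA.H74.Chain
import Pool.Agent.Lib.MP_e1f7e2_al.FA.H91.Frame

set_option autoImplicit false

/-!
Project FA, module FINH: frames with two elements in the subalgebra of `x 1, x 2`.
-/

open MulOpposite

namespace Pool.Agent.Lib.MP_e1f7e2_al.FA.H91

open Pool.Agent.Lib.MP_e1f7e2_al.FA.H74

section

variable {K : Type*} [Field K]

/-- the chain rule in three variables -/
theorem chain3 (i : Fin 3) (F : Fin 3 → A K 3) (P : A K 3) :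
    dX i (evl F P) = ∑ k, evl2 F (dX k P) * dX i (F k) := by
  refine der_ext F (fun P => dX i (evl F P))
    (fun P => ∑ k, evl2 F (dX k P) * dX i (F k)) ?_ ?_ ?_ ?_ ?_ ?_ ?_ P
  · intro P Q
    rw [map_add, dX_add]
  · intro P Q
    simp only [dX_add, e2_add, add_mul, Finset.sum_add_distrib]
  · intro c P
    rw [map_smul, dX_smul]
  · intro c P
    simp only [dX_smul, e2_smul, smul_mul_assoc, Finset.smul_sum]
  · intro P Q
    rw [map_mul, dX_mul]
  · intro P Q
    simp only [dX_mul, e2_add, e2_mul, e2_inl, e2_inr, add_mul, Finset.sum_add_distrib,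
      Finset.mul_sum, mul_assoc]
  · intro j
    simp only [dX_xx, evl_xx]
    rw [Finset.sum_eq_single j]
    · rw [if_pos rfl, e2_one, one_mul]
    · intro k _ hk
      rw [if_neg (Ne.symm hk), e2_zero, zero_mul]
    · intro h
      exact absurd (Finset.mem_univ j) h

theorem word_mem (u : List (Fin 3)) (hu : (0 : Fin 3) ∉ u) :
    (MonoidAlgebra.single (FreeMonoid.ofList u) (1 : K) : A K 3) ∈ B (xx 1) (xx 2) := by
  induction u with
  | nil => exact (B (xx 1) (xx 2)).one_mem
  | cons j u ih =>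
    have h1 : (MonoidAlgebra.single (FreeMonoid.ofList (j :: u)) (1 : K) : A K 3) =
        xx j * MonoidAlgebra.single (FreeMonoid.ofList u) 1 := by
      unfold xx
      rw [MonoidAlgebra.single_mul_single, mul_one]
      rfl
    rw [h1]
    simp only [List.mem_cons, not_or] at hu
    refine (B (xx 1) (xx 2)).mul_mem ?_ (ih hu.2)
    have h2 : j = 1 ∨ j = 2 := by
      have := hu.1
      fin_cases j
      · exact absurd rfl this
      · exact Or.inl rfl
      · exact Or.inr rfl
    rcases h2 with rfl | rfl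
    · exact Algebra.subset_adjoin (by simp)
    · exact Algebra.subset_adjoin (by simp)

theorem mem_of_dX (hc : ChainFacts K 3) (q : A K 3) (hq : dX 0 q = 0) : q ∈ B (xx 1) (xx 2) := by
  rw [← MonoidAlgebra.sum_coeff_single q]
  refine Subalgebra.sum_mem _ fun u hu => ?_
  have h1 : (MonoidAlgebra.single u (q.coeff u) : A K 3) =
      q.coeff u • MonoidAlgebra.single (FreeMonoid.ofList u.toList) 1 := by
    rw [FreeMonoid.ofList_toList, MonoidAlgebra.smul_single', mul_one]
  rw [h1]
  refine (B (xx 1) (xx 2)).smul_mem (word_mem _ ?_) _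
  intro h0
  obtain ⟨a, b, hab⟩ := List.append_of_mem h0
  have h2 : u = FreeMonoid.ofList a * FreeMonoid.of 0 * FreeMonoid.ofList b := by
    apply FreeMonoid.toList.injective
    rw [hab]
    simp
  have h3 := hc.cf 0 q (FreeMonoid.ofList a) (FreeMonoid.ofList b)
  rw [hq, ← h2] at h3
  exact (Finsupp.mem_support_iff.1 hu) h3.symm

theorem dX_B (hc : ChainFacts K 3) (f : A K 3) (hf : f ∈ B (xx 1) (xx 2)) : dX 0 f = 0 := by
  obtain ⟨P, rfl⟩ := (hc.bmem _ _ _).1 hf
  rw [hc.chain, hc.xx', hc.xx']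
  simp

theorem ret_B (r f : A K 3) (hf : f ∈ B (xx 1) (xx 2)) : evl ![r, xx 1, xx 2] f = f := by
  have h1 : B (xx 1) (xx 2) ≤ AlgHom.equalizer (evl ![r, xx 1, xx 2]) (AlgHom.id K (A K 3)) := by
    apply Algebra.adjoin_le
    intro y hy
    simp only [Set.mem_insert_iff, Set.mem_singleton_iff] at hy
    rcases hy with rfl | rfl
    · exact evl3_1 _ _ _
    · exact evl3_2 _ _ _
  exact h1 hf

theorem finh (K : Type*) [Field K] (w : Fin 3 → ℝ) (_hw : Gen w) (hc : ChainFacts K 3)
    (hb : DegbFacts K w) (_hF : FrFacts K w) : FinhStatement K := by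
  intro h f g hfr hf hg
  obtain ⟨φ, hφ⟩ := fr_evl hfr
  -- the derivative of `h`
  have key : evl2 ![h, f, g] (dX 0 (φ.symm (xx 0))) * dX 0 h = 1 := by
    have h1 := chain3 0 ![h, f, g] (φ.symm (xx 0))
    rw [← hφ, AlgEquiv.apply_symm_apply, hc.xx', if_pos rfl, Fin.sum_univ_three] at h1
    have h2 : dX 0 ((![h, f, g] : Fin 3 → A K 3) 1) = 0 := dX_B hc f hf
    have h3 : dX 0 ((![h, f, g] : Fin 3 → A K 3) 2) = 0 := dX_B hc g hg
    rw [h2, h3, mul_zero, mul_zero, add_zero, add_zero] at h1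
    exact h1.symm
  have hone : (1 : A2 K 3) ≠ 0 := by
    intro h0
    have := congrArg (fun T : A2 K 3 => T.coeff 1) h0
    simp [MonoidAlgebra.coeff_one_one] at this
  have hne1 : evl2 ![h, f, g] (dX 0 (φ.symm (xx 0))) ≠ 0 := by
    intro h0
    rw [h0, zero_mul] at key
    exact hone key.symm
  have hne2 : dX 0 h ≠ 0 := by
    intro h0
    rw [h0, mul_zero] at key
    exact hone key.symm
  have hdeg := hb.mul _ _ hne1 hne2
  rw [key] at hdeg
  have h1 : dg2 w (1 : A2 K 3) = 0 := by
    have := hb.const 1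
    rwa [one_smul] at this
  have hd0 : dg2 w (dX 0 h) = 0 := by
    have := hb.nn (evl2 ![h, f, g] (dX 0 (φ.symm (xx 0))))
    have := hb.nn (dX 0 h)
    linarith
  obtain ⟨a, ha⟩ := hb.of_zero _ hd0
  have ha0 : a ≠ 0 := by
    rintro rfl
    rw [zero_smul] at ha
    exact hne2 ha
  set q : A K 3 := h - a • xx 0 with hq
  have hqd : dX 0 q = 0 := by
    have h2 : h = a • xx 0 + q := by rw [hq]; abel
    have h3 : dX 0 h = a • 1 + dX 0 q := by
      conv_lhs => rw [h2]
      rw [hc.add, hc.smul, hc.xx', if_pos rfl]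
    rw [ha] at h3
    exact left_eq_add.1 h3
  have hqB := mem_of_dX hc q hqd
  refine ⟨⟨a, ha0, q, hqB, by rw [hq]; abel⟩, le_antisymm ?_ ?_⟩
  · apply Algebra.adjoin_le
    intro y hy
    simp only [Set.mem_insert_iff, Set.mem_singleton_iff] at hy
    rcases hy with rfl | rfl
    · exact hf
    · exact hg
  · intro y hy
    have hρ := ret_B (-(a⁻¹ • q)) y hy
    have h4 : evl ![-(a⁻¹ • q), xx 1, xx 2] h = 0 := by
      have h2 : h = a • xx 0 + q := by rw [hq]; abel
      rw [h2, map_add, map_smul, evl3_0, ret_B _ q hqB, smul_neg, smul_smul,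
        mul_inv_cancel₀ ha0, one_smul, neg_add_cancel]
    have h5 : ((evl ![-(a⁻¹ • q), xx 1, xx 2]).comp (evl ![h, f, g]) : A K 3 →ₐ[K] A K 3) =
        evl ![0, f, g] := by
      apply alg_ext
      intro i
      rw [AlgHom.comp_apply]
      fin_cases i
      · show evl ![-(a⁻¹ • q), xx 1, xx 2] (evl ![h, f, g] (xx 0)) = evl ![0, f, g] (xx 0)
        rw [evl3_0, h4, evl3_0]
      · show evl ![-(a⁻¹ • q), xx 1, xx 2] (evl ![h, f, g] (xx 1)) = evl ![0, f, g] (xx 1)
        rw [evl3_1, ret_B _ f hf, evl3_1]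
      · show evl ![-(a⁻¹ • q), xx 1, xx 2] (evl ![h, f, g] (xx 2)) = evl ![0, f, g] (xx 2)
        rw [evl3_2, ret_B _ g hg, evl3_2]
    have h6 : y = evl ![0, f, g] (φ.symm y) := by
      rw [← h5, AlgHom.comp_apply, ← hφ, AlgEquiv.apply_symm_apply, hρ]
    rw [h6]
    -- the image of `evl ![0, f, g]`
    have h7 : ∀ P : A K 3, evl ![0, f, g] P ∈ B f g := by
      intro P
      rw [← MonoidAlgebra.sum_coeff_single P]
      unfold Finsupp.sum
      rw [map_sum]
      refine Subalgebra.sum_mem _ fun u hu => ?_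
      clear hu
      rw [evl_single]
      refine (B f g).smul_mem ?_ _
      induction u using FreeMonoid.inductionOn' with
      | one => rw [map_one]; exact (B f g).one_mem
      | of_mul j u ih =>
        rw [map_mul, FreeMonoid.lift_eval_of]
        refine (B f g).mul_mem ?_ ih
        fin_cases j
        · exact (B f g).zero_mem
        · exact Algebra.subset_adjoin (by simp)
        · exact Algebra.subset_adjoin (by simp)
    exact h7 _

end

end Pool.Agent.Lib.MP_e1f7e2_al.FA.H91
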